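import Mathlib
import Pool.Agent.Run7.h680.BD.Stm

set_option autoImplicit false

namespace Pool.Agent.Run7.h497.BD

open Pool.Agent.Run7.h680.BD

open Classical in
theorem exists_min_set {U : Type} [Fintype U] (P : Finset U → Prop) (h : P Finset.univ) :
    ∃ Y, P Y ∧ ∀ z ∈ Y, ¬ P (Y.erase z) := by
  have key : ∀ Y : Finset U, P Y → ∃ Y', P Y' ∧ ∀ z ∈ Y', ¬ P (Y'.erase z) := by
    intro Y
    induction Y using Finset.strongInductionOn with
    | _ Y ih =>
      intro hY
      by_cases hz : ∃ z ∈ Y, P (Y.erase z)
      · obtain ⟨z, hz1, hz2⟩ := hz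
        exact ih _ (Finset.erase_ssubset hz1) hz2
      · push Not at hz
        exact ⟨Y, hY, hz⟩
  exact key _ h

theorem t_LA : S_LA := by
  intro U E E' _ _ _ _ _ _ α β hinj
  classical
  let Φ : E →ₗ[ℚ] E' := ∑ z, (α z).smulRight (β z)
  have hΦ : ∀ c, Φ c = ∑ z, α z c • β z := by
    intro c; simp [Φ, LinearMap.sum_apply]
  have hker : LinearMap.ker Φ = ⊥ := by
    rw [LinearMap.ker_eq_bot']
    intro c hc
    exact hinj c ((hΦ c).symm.trans hc)
  obtain ⟨Ψ, hΨ⟩ := Φ.exists_leftInverse_of_injective hker
  let b : U → E := fun z => Ψ (β z)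
  let M : Finset U → (E →ₗ[ℚ] E) := fun Y => ∑ z ∈ Y, (α z).smulRight (b z)
  have hM : ∀ Y c, M Y c = ∑ z ∈ Y, α z c • b z := by
    intro Y c; simp [M, LinearMap.sum_apply]
  have huniv : M Finset.univ = LinearMap.id := by
    rw [← hΨ]
    ext c
    rw [hM, LinearMap.comp_apply, hΦ, map_sum]
    simp [b]
  obtain ⟨Y, hY, hmin⟩ := exists_min_set (fun Y => Function.Injective (M Y))
    (by rw [huniv]; exact Function.injective_id)
  let e := LinearEquiv.ofInjectiveEndo (M Y) hY
  have he : ∀ c, e c = M Y c := fun c => by simp [e]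
  have hcard : Y.card ≤ Module.finrank ℚ E := by
    by_contra hlt
    push Not at hlt
    have htr : ∑ z ∈ Y, α z (e.symm (b z)) = (Module.finrank ℚ E : ℚ) := by
      have h1 : (∑ z ∈ Y, (α z).smulRight (e.symm (b z)) : E →ₗ[ℚ] E) = LinearMap.id := by
        ext c
        simp only [LinearMap.sum_apply, LinearMap.smulRight_apply, LinearMap.id_apply]
        have : e.symm (e c) = c := e.symm_apply_apply c
        rw [he, hM, map_sum] at this
        simpa using this
      have h2 := congrArg (LinearMap.trace ℚ E) h1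
      rw [map_sum, LinearMap.trace_id] at h2
      rw [← h2]
      apply Finset.sum_congr rfl
      intro z _
      rw [LinearMap.trace_smulRight]
    have hex : ∃ z ∈ Y, α z (e.symm (b z)) ≠ 1 := by
      by_contra hcon
      push Not at hcon
      rw [Finset.sum_congr rfl hcon] at htr
      simp at htr
      omega
    obtain ⟨z, hz, hz1⟩ := hex
    apply hmin z hz
    rw [← LinearMap.ker_eq_bot, LinearMap.ker_eq_bot']
    intro c hc
    have h1 : M Y c = α z c • b z + M (Y.erase z) c := by
      rw [hM, hM, Finset.add_sum_erase Y (fun z => α z c • b z) hz]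
    rw [hc, add_zero] at h1
    have h2 : c = α z c • e.symm (b z) := by
      rw [← map_smul, ← h1, ← he, e.symm_apply_apply]
    have h3 : α z c = α z c * α z (e.symm (b z)) := by
      conv_lhs => rw [h2]
      simp
    have h4 : α z c = 0 := by
      by_contra h5
      apply hz1
      have := mul_left_cancel₀ h5 (h3.symm.trans (mul_one _).symm)
      exact this
    rw [h2, h4, zero_smul]
  have hspan : ⊤ ≤ Submodule.span ℚ (Set.range fun z : Y => b z) := by
    intro x _
    obtain ⟨c, rfl⟩ := e.surjective x
    rw [he, hM]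
    apply Submodule.sum_mem
    intro z hz
    exact Submodule.smul_mem _ _ (Submodule.subset_span ⟨⟨z, hz⟩, rfl⟩)
  have hfr : Fintype.card Y = Module.finrank ℚ E := by
    apply le_antisymm
    · simpa using hcard
    · have h1 := finrank_range_le_card (R := ℚ) (fun z : Y => b z)
      have h2 : Submodule.span ℚ (Set.range fun z : Y => b z) = ⊤ := top_le_iff.1 hspan
      rw [Set.finrank, h2, finrank_top] at h1
      exact h1
  have hli := linearIndependent_of_top_le_span_of_card_eq_finrank hspan hfr
  refine ⟨Y, ?_, ?_⟩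
  · intro c hc
    apply hY
    rw [hM, map_zero]
    exact Finset.sum_eq_zero fun z hz => by rw [hc z hz, zero_smul]
  · intro d hd hsum
    have h1 : ∑ z ∈ Y, d z • b z = 0 := by
      have h2 := congrArg Ψ hsum
      rw [map_sum, map_zero] at h2
      rw [← h2]
      rw [← Finset.sum_subset (Finset.subset_univ Y)]
      · exact Finset.sum_congr rfl fun z _ => by simp [b]
      · intro z _ hz
        rw [hd z hz, zero_smul, map_zero]
    have h3 : ∀ z : Y, d z = 0 := by
      have := Fintype.linearIndependent_iff.1 hli (fun z => d z) (by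
        rw [← h1, ← Finset.sum_coe_sort Y (fun z => d z • b z)])
      exact this
    funext z
    by_cases hz : z ∈ Y
    · exact h3 ⟨z, hz⟩
    · exact hd z hz

end Pool.Agent.Run7.h497.BD
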