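import Mathlib
import Pool.Agent.Run7.h680.BD.Stm

set_option autoImplicit false

namespace Pool.Agent.Run7.h497.BD

open SimpleGraph Pool.Agent.Run7.h680.BD

theorem t_CNT : S_CNT := by
  intro V _ B p₃ Ex hB hcov
  classical
  rcases isEmpty_or_nonempty V with h | h
  · have : {x | p₃ x = none} = (∅ : Set V) := Set.eq_empty_of_isEmpty _
    rw [this, Set.ncard_empty]; exact Nat.zero_le _
  have hc : B.Connected := ⟨hB⟩
  have h1 : Nat.card V ≤ Nat.card B.edgeSet + 1 := hc.card_vert_le_card_edgeSet_add_one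
  let f : V → Sym2 V := fun x => s(x, (p₃ x).getD x)
  have h2 : B.edgeSet ⊆ (↑Ex : Set (Sym2 V)) ∪ f '' {x | p₃ x ≠ none} := by
    intro e he
    induction e using Sym2.ind with
    | _ x y =>
      rw [SimpleGraph.mem_edgeSet] at he
      rcases hcov x y he with h3 | h3 | h3
      · exact Or.inr ⟨x, by simp [h3], by simp [f, h3]⟩
      · exact Or.inr ⟨y, by simp [h3], by simp [f, h3, Sym2.eq_swap]⟩
      · exact Or.inl (by simpa using h3)
  have h3 : B.edgeSet.ncard ≤ Ex.card + {x | p₃ x ≠ none}.ncard := by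
    refine (Set.ncard_le_ncard h2 (Set.toFinite _)).trans ?_
    refine (Set.ncard_union_le _ _).trans ?_
    rw [Set.ncard_coe_finset]
    exact Nat.add_le_add_left (Set.ncard_image_le (Set.toFinite _)) _
  have h4 : {x | p₃ x = none}.ncard + {x | p₃ x ≠ none}.ncard = Nat.card V := by
    have : {x | p₃ x ≠ none} = {x | p₃ x = none}ᶜ := rfl
    rw [this, Set.ncard_add_ncard_compl]
  rw [Nat.card_coe_set_eq] at h1
  omega

end Pool.Agent.Run7.h497.BD
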