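import Mathlib
import Pool.Agent.Run7.h680.BD.Stm

set_option autoImplicit false

namespace Pool.Agent.Run7.h497.BD

open SimpleGraph Pool.Agent.Run7.h680.BD

open Classical in
theorem path_aux (V : Type) (B : SimpleGraph V) (p₃ : V → Option V) (lev : V → ℕ)
    (Ex : Finset (Sym2 V)) (j : ℕ) (h1 : ∀ x y, p₃ x = some y → lev y < lev x)
    (h2 : ∀ x, lev x ≤ j)
    (h3 : ∀ x y, B.Adj x y → p₃ x = some y ∨ p₃ y = some x ∨ s(x, y) ∈ Ex)
    (x y : V) (w : B.Walk x y) : w.IsPath →
    (w.length ≤ (2 * j + 1) * (w.edges.filter (· ∈ Ex)).length + (j + lev x)) ∧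
    (p₃ x ≠ some (w.getVert 1) →
      w.length ≤ (2 * j + 1) * (w.edges.filter (· ∈ Ex)).length + (j - lev x)) := by
  induction w with
  | nil => intro _; simp
  | @cons x z y h w ih =>
    intro hp
    rw [SimpleGraph.Walk.cons_isPath_iff] at hp
    obtain ⟨ha, hb⟩ := ih hp.1
    have hz := h2 z
    have hx := h2 x
    rw [SimpleGraph.Walk.length_cons, SimpleGraph.Walk.edges_cons]
    by_cases he : s(x, z) ∈ Ex
    · have h4 : (List.filter (fun x => decide (x ∈ Ex)) (s(x, z) :: w.edges)).length =
          (List.filter (fun x => decide (x ∈ Ex)) w.edges).length + 1 := by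
        rw [List.filter_cons_of_pos (by simpa using he), List.length_cons]
      rw [h4, Nat.mul_add, Nat.mul_one]
      constructor
      · omega
      · intro _; omega
    · have h4 : List.filter (fun x => decide (x ∈ Ex)) (s(x, z) :: w.edges) =
          List.filter (fun x => decide (x ∈ Ex)) w.edges := by
        rw [List.filter_cons_of_neg (by simpa using he)]
      rw [h4]
      rcases h3 x z h with h5 | h5 | h5
      · have h6 := h1 x z h5
        refine ⟨by omega, fun h7 => ?_⟩
        exfalso; apply h7
        rw [h5]; simp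
      · have h6 := h1 z x h5
        have h7 : p₃ z ≠ some (w.getVert 1) := by
          rw [h5]
          intro h8
          have h9 : x = w.getVert 1 := by simpa using h8
          exact hp.2 (h9 ▸ SimpleGraph.Walk.getVert_mem_support w 1)
        have h8 := hb h7
        refine ⟨by omega, fun _ => by omega⟩
      · exact absurd h5 he

theorem t_PATH : S_PATH := by
  classical
  intro V B p₃ lev Ex j h1 h2 h3 x y w hw
  have h4 := (path_aux V B p₃ lev Ex j h1 h2 h3 x y w hw).1
  have h5 : (w.edges.filter (· ∈ Ex)).length ≤ Ex.card := by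
    have h6 : (w.edges.filter (· ∈ Ex)).Nodup := hw.isTrail.edges_nodup.filter _
    rw [← List.toFinset_card_of_nodup h6]
    apply Finset.card_le_card
    intro e he
    simpa using (List.mem_filter.1 (List.mem_toFinset.1 he)).2
  have h6 := h2 x
  have h7 : (2 * j + 1) * (w.edges.filter (· ∈ Ex)).length ≤ (2 * j + 1) * Ex.card :=
    Nat.mul_le_mul_left _ h5
  calc w.length ≤ _ := h4
    _ ≤ (2 * j + 1) * Ex.card + 2 * j := by omega

end Pool.Agent.Run7.h497.BD
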